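import Mathlib

/-! Extensions `G D` built from a group `H` acting on an additive group `V` with an invariant
bi-additive map `β : V → V → C`. -/

namespace Q17.Fact

structure Data (H V C : Type) [Group H] [AddCommGroup V] [AddCommGroup C] where
  act : H → V → V
  act_one : ∀ v, act 1 v = v
  act_mul : ∀ g h v, act (g * h) v = act g (act h v)
  act_add : ∀ g v w, act g (v + w) = act g v + act g w
  β : V → V → C
  β_add_left : ∀ u v w, β (u + v) w = β u w + β v w
  β_add_right : ∀ u v w, β u (v + w) = β u v + β u w
  β_inv : ∀ g v w, β (act g v) (act g w) = β v w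

@[ext] structure G {H V C : Type} [Group H] [AddCommGroup V] [AddCommGroup C]
    (D : Data H V C) where
  h : H
  v : V
  t : C

variable {H V C : Type} [Group H] [AddCommGroup V] [AddCommGroup C] (D : Data H V C)

namespace Data

lemma act_zero (g : H) : D.act g 0 = 0 := by
  have := D.act_add g 0 0
  simpa using this

lemma act_neg (g : H) (v : V) : D.act g (-v) = - D.act g v := by
  have := D.act_add g v (-v)
  rw [add_neg_cancel, act_zero] at this
  exact (neg_eq_of_add_eq_zero_right this.symm).symm

lemma β_zero_left (w : V) : D.β 0 w = 0 := by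
  have := D.β_add_left 0 0 w
  simpa using this

lemma β_zero_right (w : V) : D.β w 0 = 0 := by
  have := D.β_add_right w 0 0
  simpa using this

lemma β_neg_right (v w : V) : D.β v (-w) = - D.β v w := by
  have := D.β_add_right v w (-w)
  rw [add_neg_cancel, β_zero_right] at this
  exact (neg_eq_of_add_eq_zero_right this.symm).symm

lemma β_neg_left (v w : V) : D.β (-v) w = - D.β v w := by
  have := D.β_add_left v (-v) w
  rw [add_neg_cancel, β_zero_left] at this
  exact (neg_eq_of_add_eq_zero_right this.symm).symm

end Data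

namespace G

variable {D}

instance : Mul (G D) :=
  ⟨fun a b => ⟨a.h * b.h, a.v + D.act a.h b.v, a.t + b.t + D.β a.v (D.act a.h b.v)⟩⟩
instance : One (G D) := ⟨⟨1, 0, 0⟩⟩
instance : Inv (G D) := ⟨fun a => ⟨a.h⁻¹, - D.act a.h⁻¹ a.v, - a.t + D.β a.v a.v⟩⟩

@[simp] lemma mul_h (a b : G D) : (a * b).h = a.h * b.h := rfl
@[simp] lemma mul_v (a b : G D) : (a * b).v = a.v + D.act a.h b.v := rfl
@[simp] lemma mul_t (a b : G D) : (a * b).t = a.t + b.t + D.β a.v (D.act a.h b.v) := rfl
@[simp] lemma one_h : (1 : G D).h = 1 := rfl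
@[simp] lemma one_v : (1 : G D).v = 0 := rfl
@[simp] lemma one_t : (1 : G D).t = 0 := rfl
@[simp] lemma inv_h (a : G D) : (a⁻¹).h = a.h⁻¹ := rfl
@[simp] lemma inv_v (a : G D) : (a⁻¹).v = - D.act a.h⁻¹ a.v := rfl
@[simp] lemma inv_t (a : G D) : (a⁻¹).t = - a.t + D.β a.v a.v := rfl

instance : Group (G D) :=
  Group.ofLeftAxioms
    (fun a b c => by
      apply G.ext
      · simp [mul_assoc]
      · simp [D.act_mul, D.act_add, add_assoc]
      · simp only [mul_t, mul_v, mul_h, D.act_mul, D.act_add, D.β_add_left, D.β_add_right,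
          D.β_inv]
        abel)
    (fun a => by
      apply G.ext
      · simp
      · simp [D.act_one]
      · simp [D.β_zero_left])
    (fun a => by
      apply G.ext
      · simp
      · simp
      · simp [D.β_neg_left, D.β_inv])

end G

end Q17.Fact
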