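import Pool.Agent.Q17.Fact.Basic

/-! The concrete data. -/

namespace Q17.Fact

/-- The Heisenberg group over `F`. -/
@[ext] structure Hs (F : Type) where
  x : F
  y : F
  z : F

namespace Hs

variable {F : Type} [CommRing F]

instance : Mul (Hs F) := ⟨fun a b => ⟨a.x + b.x, a.y + b.y, a.z + b.z + a.x * b.y⟩⟩
instance : One (Hs F) := ⟨⟨0, 0, 0⟩⟩
instance : Inv (Hs F) := ⟨fun a => ⟨-a.x, -a.y, a.x * a.y - a.z⟩⟩

@[simp] lemma mul_x (a b : Hs F) : (a * b).x = a.x + b.x := rfl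
@[simp] lemma mul_y (a b : Hs F) : (a * b).y = a.y + b.y := rfl
@[simp] lemma mul_z (a b : Hs F) : (a * b).z = a.z + b.z + a.x * b.y := rfl
@[simp] lemma one_x : (1 : Hs F).x = 0 := rfl
@[simp] lemma one_y : (1 : Hs F).y = 0 := rfl
@[simp] lemma one_z : (1 : Hs F).z = 0 := rfl
@[simp] lemma inv_x (a : Hs F) : (a⁻¹).x = -a.x := rfl
@[simp] lemma inv_y (a : Hs F) : (a⁻¹).y = -a.y := rfl
@[simp] lemma inv_z (a : Hs F) : (a⁻¹).z = a.x * a.y - a.z := rfl

instance : Group (Hs F) :=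
  Group.ofLeftAxioms
    (fun a b c => by ext <;> simp <;> ring)
    (fun a => by ext <;> simp)
    (fun a => by ext <;> simp)

end Hs

variable (F : Type) [CommRing F]

abbrev VV : Type := Fin 16 → F

variable {F}

/-- the action of the Heisenberg group: coordinates `0, …, 5` carry the divided square of the
natural module, `6, …, 11` its dual and `12, …, 15` a trivial module -/
def hact (g : Hs F) (v : VV F) : VV F :=
  ![v 0,
    v 1 + g.y * v 0,
    v 2 + g.z * v 0 + g.x * v 1,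
    v 3 + g.y ^ 2 * v 0 + 2 * g.y * v 1,
    v 4 + g.y * g.z * v 0 + (g.x * g.y + g.z) * v 1 + g.y * v 2 + g.x * v 3,
    v 5 + g.z ^ 2 * v 0 + 2 * g.x * g.z * v 1 + 2 * g.z * v 2 + g.x ^ 2 * v 3 + 2 * g.x * v 4,
    v 6 - g.y * v 7 + (g.x * g.y - g.z) * v 8 + g.y ^ 2 * v 9
      - g.y * (g.x * g.y - g.z) * v 10 + (g.x * g.y - g.z) ^ 2 * v 11,
    v 7 - g.x * v 8 - 2 * g.y * v 9 + (g.x * g.y + (g.x * g.y - g.z)) * v 10
      - 2 * g.x * (g.x * g.y - g.z) * v 11,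
    v 8 - g.y * v 10 + 2 * (g.x * g.y - g.z) * v 11,
    v 9 - g.x * v 10 + g.x ^ 2 * v 11,
    v 10 - 2 * g.x * v 11,
    v 11,
    v 12, v 13, v 14, v 15]

section
variable (g : Hs F) (v : VV F)
lemma hact_0 : hact g v 0 = v 0 := rfl
lemma hact_1 : hact g v 1 = v 1 + g.y * v 0 := rfl
lemma hact_2 : hact g v 2 = v 2 + g.z * v 0 + g.x * v 1 := rfl
lemma hact_3 : hact g v 3 = v 3 + g.y ^ 2 * v 0 + 2 * g.y * v 1 := rfl
lemma hact_4 : hact g v 4 = v 4 + g.y * g.z * v 0 + (g.x * g.y + g.z) * v 1 + g.y * v 2 + g.x * v 3 := rfl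
lemma hact_5 : hact g v 5 = v 5 + g.z ^ 2 * v 0 + 2 * g.x * g.z * v 1 + 2 * g.z * v 2 + g.x ^ 2 * v 3 + 2 * g.x * v 4 := rfl
lemma hact_6 : hact g v 6 = v 6 - g.y * v 7 + (g.x * g.y - g.z) * v 8 + g.y ^ 2 * v 9
      - g.y * (g.x * g.y - g.z) * v 10 + (g.x * g.y - g.z) ^ 2 * v 11 := rfl
lemma hact_7 : hact g v 7 = v 7 - g.x * v 8 - 2 * g.y * v 9 + (g.x * g.y + (g.x * g.y - g.z)) * v 10
      - 2 * g.x * (g.x * g.y - g.z) * v 11 := rfl
lemma hact_8 : hact g v 8 = v 8 - g.y * v 10 + 2 * (g.x * g.y - g.z) * v 11 := rfl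
lemma hact_9 : hact g v 9 = v 9 - g.x * v 10 + g.x ^ 2 * v 11 := rfl
lemma hact_10 : hact g v 10 = v 10 - 2 * g.x * v 11 := rfl
lemma hact_11 : hact g v 11 = v 11 := rfl
lemma hact_12 : hact g v 12 = v 12 := rfl
lemma hact_13 : hact g v 13 = v 13 := rfl
lemma hact_14 : hact g v 14 = v 14 := rfl
lemma hact_15 : hact g v 15 = v 15 := rfl
end

/-- the invariant bilinear map -/
def hβ (v w : VV F) : F :=
  v 6 * w 0 + v 7 * w 1 + v 8 * w 2 + v 9 * w 3 + v 10 * w 4 + v 11 * w 5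
    - v 14 * w 12 - v 15 * w 13

lemma hact_one (v : VV F) : hact 1 v = v := by
  funext i
  fin_cases i <;> simp [hact]

set_option maxHeartbeats 4000000 in
lemma hact_mul (g h : Hs F) (v : VV F) : hact (g * h) v = hact g (hact h v) := by
  funext i
  fin_cases i <;> simp [hact] <;> ring

lemma hact_add (g : Hs F) (v w : VV F) : hact g (v + w) = hact g v + hact g w := by
  funext i
  fin_cases i <;> simp [hact] <;> ring

lemma hβ_inv (g : Hs F) (v w : VV F) : hβ (hact g v) (hact g w) = hβ v w := by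
  simp [hact, hβ]
  ring

variable (F) in
/-- the data -/
def DD : Data (Hs F) (VV F) F where
  act := hact
  act_one := hact_one
  act_mul := hact_mul
  act_add := hact_add
  β := hβ
  β_add_left := fun u v w => by simp [hβ]; ring
  β_add_right := fun u v w => by simp [hβ]; ring
  β_inv := hβ_inv

end Q17.Fact
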