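import Pool.Agent.Q17.Fact.Main

/-! The final theorem on factorised `p`-groups. -/

open scoped commutatorElement Pointwise

namespace Q17.Fact

section

variable (F : Type) [CommRing F]

lemma hact_zero {F : Type} [CommRing F] (g : Hs F) : hact g 0 = 0 := (DD F).act_zero g

def u1 : PP F := ⟨⟨1, 0, 0⟩, 0, 0⟩
def u2 : PP F := ⟨⟨0, 1, 0⟩, 0, 0⟩
def a1 : PP F := ⟨1, ![1, 0, 0, 0, 0, 0, 0, 0, 0, 0, 0, 0, 0, 0, 0, 0], 0⟩
def a2 : PP F := ⟨1, ![0, 0, 0, 0, 0, 0, 0, 0, 0, 0, 0, 1, 0, 0, 0, 0], 0⟩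
def b1 : PP F := ⟨1, ![0, 0, -1, 0, 0, 0, 0, 0, 0, 0, 0, 0, -1, 0, 0, 0], 0⟩
def b2 : PP F := ⟨1, ![0, 0, 0, 0, 0, 0, 0, 0, 2, 0, 0, 0, 0, 0, 2, 0], 0⟩

def m1 : PP F := ⁅⁅u1 F, u2 F⁆, a1 F⁆ * b1 F
def m2 : PP F := ⁅⁅u1 F, u2 F⁆, a2 F⁆ * b2 F

lemma zz : ⁅u1 F, u2 F⁆ = ⟨⟨0, 0, 1⟩, 0, 0⟩ := by
  apply G.ext
  · apply Hs.ext <;> simp [commutatorElement_def, u1, u2]
  · simp [commutatorElement_def, u1, u2, hact_zero]
  · simp [commutatorElement_def, u1, u2, hact_zero, hβ]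

lemma comm_tr_h {F : Type} [CommRing F] (h : Hs F) (v : VV F) :
    (⁅(⟨h, 0, 0⟩ : PP F), (⟨1, v, 0⟩ : PP F)⁆).h = 1 := by
  simp [commutatorElement_def]

lemma comm_tr_v {F : Type} [CommRing F] (h : Hs F) (v : VV F) :
    (⁅(⟨h, 0, 0⟩ : PP F), (⟨1, v, 0⟩ : PP F)⁆).v = hact h v - v := by
  simp [commutatorElement_def, hact_zero, hact_one, sub_eq_add_neg]

lemma m1_h : (m1 F).h = 1 := by
  rw [m1, G.mul_h, zz, a1, comm_tr_h, one_mul]; rfl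

lemma m2_h : (m2 F).h = 1 := by
  rw [m2, G.mul_h, zz, a2, comm_tr_h, one_mul]; rfl

lemma m1_v : (m1 F).v = ![0, 0, 0, 0, 0, 1, 0, 0, 0, 0, 0, 0, -1, 0, 0, 0] := by
  rw [m1, G.mul_v, zz, a1, comm_tr_h, comm_tr_v, DD_act, hact_one, b1]
  funext i
  fin_cases i <;> simp [hact]

lemma m2_v : (m2 F).v = ![0, 0, 0, 0, 0, 0, 1, 0, 0, 0, 0, 0, 0, 0, 2, 0] := by
  rw [m2, G.mul_v, zz, a2, comm_tr_h, comm_tr_v, DD_act, hact_one, b2]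
  funext i
  fin_cases i <;> simp [hact]

lemma u1_mem : u1 F ∈ SB F := by
  refine ⟨rfl, rfl, rfl, rfl, rfl, rfl, rfl, rfl⟩

lemma u2_mem : u2 F ∈ SB F := by
  refine ⟨rfl, rfl, rfl, rfl, rfl, rfl, rfl, rfl⟩

lemma a1_mem : a1 F ∈ SA F := by
  refine ⟨rfl, rfl, rfl, rfl, rfl, rfl, rfl, rfl, rfl, rfl⟩

lemma a2_mem : a2 F ∈ SA F := by
  refine ⟨rfl, rfl, rfl, rfl, rfl, rfl, rfl, rfl, rfl, rfl⟩

lemma b1_mem : b1 F ∈ SA F := by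
  refine ⟨rfl, rfl, rfl, rfl, rfl, rfl, rfl, rfl, rfl, rfl⟩

lemma b2_mem : b2 F ∈ SA F := by
  refine ⟨rfl, rfl, rfl, rfl, rfl, rfl, rfl, rfl, rfl, rfl⟩

lemma m1_memB : m1 F ∈ SB F := by
  rw [mem_SB, InB, m1_v]
  refine ⟨rfl, rfl, rfl, rfl, rfl, rfl, rfl, rfl⟩

lemma m2_memB : m2 F ∈ SB F := by
  rw [mem_SB, InB, m2_v]
  refine ⟨rfl, rfl, rfl, rfl, rfl, rfl, rfl, rfl⟩

lemma m1_memM : m1 F ∈ SA F ⊔ ⁅SB F, SB F⁆ := by
  have h1 : ⁅u1 F, u2 F⁆ ∈ SA F ⊔ ⁅SB F, SB F⁆ :=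
    Subgroup.mem_sup_right (Subgroup.commutator_mem_commutator (u1_mem F) (u2_mem F))
  have h2 : a1 F ∈ SA F ⊔ ⁅SB F, SB F⁆ := Subgroup.mem_sup_left (a1_mem F)
  have h3 : b1 F ∈ SA F ⊔ ⁅SB F, SB F⁆ := Subgroup.mem_sup_left (b1_mem F)
  rw [m1]
  refine mul_mem ?_ h3
  rw [commutatorElement_def]
  exact mul_mem (mul_mem (mul_mem h1 h2) (inv_mem h1)) (inv_mem h2)

lemma m2_memM : m2 F ∈ SA F ⊔ ⁅SB F, SB F⁆ := by
  have h1 : ⁅u1 F, u2 F⁆ ∈ SA F ⊔ ⁅SB F, SB F⁆ :=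
    Subgroup.mem_sup_right (Subgroup.commutator_mem_commutator (u1_mem F) (u2_mem F))
  have h2 : a2 F ∈ SA F ⊔ ⁅SB F, SB F⁆ := Subgroup.mem_sup_left (a2_mem F)
  have h3 : b2 F ∈ SA F ⊔ ⁅SB F, SB F⁆ := Subgroup.mem_sup_left (b2_mem F)
  rw [m2]
  refine mul_mem ?_ h3
  rw [commutatorElement_def]
  exact mul_mem (mul_mem (mul_mem h1 h2) (inv_mem h1)) (inv_mem h2)

lemma m_ne (h2 : (2 : F) ≠ 0) : m1 F * m2 F ≠ m2 F * m1 F := by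
  intro h
  have ht := congrArg G.t h
  simp only [G.mul_t, m1_h, m2_h, DD_act, hact_one, DD_β] at ht
  rw [m1_v, m2_v] at ht
  simp [hβ] at ht
  apply h2
  have h3 : (m1 F).t + (m2 F).t = (m2 F).t + (m1 F).t + 2 := by simpa using ht
  have h4 : (m1 F).t + (m2 F).t + 0 = (m1 F).t + (m2 F).t + 2 := by
    rw [add_zero]
    calc (m1 F).t + (m2 F).t = (m2 F).t + (m1 F).t + 2 := h3
      _ = (m1 F).t + (m2 F).t + 2 := by ring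
  exact (add_left_cancel h4).symm

end

theorem main (p : ℕ) [Fact p.Prime] (hp : p ≠ 2) :
    ∃ (P : Type) (_ : Group P) (_ : Finite P), IsPGroup p P ∧
      ∃ A B : Subgroup P, (∀ g : P, ∃ a ∈ A, ∃ b ∈ B, a * b = g) ∧ A ⊓ B = ⊥ ∧
        (∀ x ∈ A, ∀ y ∈ A, x * y = y * x) ∧
        (Group.IsNilpotent B ∧ Group.nilpotencyClass B = 2) ∧
        ∀ B₀ : Subgroup P, B₀ ≤ B → (∀ x ∈ B₀, ∀ y ∈ B₀, x * y = y * x) →
          ((A ⊔ ⁅B, B⁆ : Subgroup P) : Set P) ≠ (A : Set P) * (B₀ : Set P) := by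
  have hp2 : (2 : ZMod p) ≠ 0 := by
    intro h
    have h1 : ((2 : ℕ) : ZMod p) = 0 := by exact_mod_cast h
    rw [ZMod.natCast_eq_zero_iff] at h1
    exact hp ((Nat.prime_dvd_prime_iff_eq (Fact.out) Nat.prime_two).mp h1)
  have e : PP (ZMod p) ≃ ((ZMod p × ZMod p × ZMod p) × VV (ZMod p)) × ZMod p :=
    { toFun := fun g => (((g.h.x, g.h.y, g.h.z), g.v), g.t)
      invFun := fun q => ⟨⟨q.1.1.1, q.1.1.2.1, q.1.1.2.2⟩, q.1.2, q.2⟩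
      left_inv := fun _ => rfl
      right_inv := fun _ => rfl }
  have hfin : Finite (PP (ZMod p)) := Finite.of_equiv _ e.symm
  have hcard : Nat.card (PP (ZMod p)) = p ^ 20 := by
    rw [Nat.card_congr e]
    rw [Nat.card_prod, Nat.card_prod, Nat.card_prod, Nat.card_prod, Nat.card_fun, Nat.card_zmod,
      Nat.card_fin]
    ring
  refine ⟨PP (ZMod p), inferInstance, hfin, IsPGroup.of_card hcard, SA (ZMod p), SB (ZMod p),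
    factor, inf_eq_bot, fun x hx y hy => SA_comm hx hy, ?_, ?_⟩
  · refine class_two ?_ ?_
    · intro a b c
      have h := comm_shape a.2 b.2
      apply Subtype.ext
      exact shape_central h.1 h.2.1 h.2.2 c.2
    · refine ⟨⟨m1 _, m1_memB _⟩, ⟨m2 _, m2_memB _⟩, fun h => m_ne (ZMod p) hp2 ?_⟩
      exact congrArg Subtype.val h
  · intro B₀ hB₀ hab heq
    have key : ∀ m, m ∈ SA (ZMod p) ⊔ ⁅SB (ZMod p), SB (ZMod p)⁆ → m ∈ SB (ZMod p) → m ∈ B₀ := by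
      intro m hm hmB
      have h1 : m ∈ ((SA (ZMod p) ⊔ ⁅SB (ZMod p), SB (ZMod p)⁆ : Subgroup _) :
        Set (PP (ZMod p))) := hm
      rw [heq] at h1
      obtain ⟨a, ha, b, hb, rfl⟩ := Set.mem_mul.mp h1
      have h2 : a ∈ SA (ZMod p) ⊓ SB (ZMod p) := by
        refine ⟨ha, ?_⟩
        have := mul_mem hmB (inv_mem (hB₀ hb))
        simpa using this
      rw [inf_eq_bot, Subgroup.mem_bot] at h2
      rw [h2, one_mul]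
      exact hb
    exact m_ne (ZMod p) hp2 (hab _ (key _ (m1_memM _) (m1_memB _)) _
      (key _ (m2_memM _) (m2_memB _)))

end Q17.Fact
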