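import Pool.Agent.Q17.Fact.Concrete

/-! The factorised `p`-group. -/

open scoped commutatorElement Pointwise

namespace Q17.Fact

lemma class_two {G : Type} [Group G] (h : ∀ a b c : G, ⁅a, b⁆ * c = c * ⁅a, b⁆)
    (hne : ∃ a b : G, a * b ≠ b * a) : Group.IsNilpotent G ∧ Group.nilpotencyClass G = 2 := by
  have h2 : Subgroup.upperCentralSeries G 2 = ⊤ := by
    rw [eq_top_iff]
    intro a _
    rw [Subgroup.mem_upperCentralSeries_succ_iff]
    intro b
    rw [Subgroup.upperCentralSeries_one, Subgroup.mem_center_iff]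
    intro c
    have := h a b c
    rw [commutatorElement_def] at this
    exact this.symm
  have hn : Group.IsNilpotent G := ⟨⟨2, h2⟩⟩
  refine ⟨hn, le_antisymm ?_ ?_⟩
  · exact Subgroup.upperCentralSeries_eq_top_iff_nilpotencyClass_le.mp h2
  · by_contra hlt
    have h1 : Subgroup.upperCentralSeries G 1 = ⊤ :=
      Subgroup.upperCentralSeries_eq_top_iff_nilpotencyClass_le.mpr (by omega)
    rw [Subgroup.upperCentralSeries_one] at h1
    obtain ⟨a, b, hab⟩ := hne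
    apply hab
    have : b ∈ Subgroup.center G := by rw [h1]; trivial
    exact Subgroup.mem_center_iff.mp this a


section

variable (F : Type) [CommRing F]

abbrev PP : Type := G (DD F)

variable {F}

@[simp] lemma DD_act (g : Hs F) (v : VV F) : (DD F).act g v = hact g v := rfl
@[simp] lemma DD_β (v w : VV F) : (DD F).β v w = hβ v w := rfl

/-- membership in the abelian factor -/
def InA (g : PP F) : Prop :=
  g.h = 1 ∧ g.t = 0 ∧ g.v 4 = 0 ∧ g.v 5 = 0 ∧ g.v 6 = 0 ∧ g.v 7 = 0 ∧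
    g.v 12 = g.v 2 ∧ g.v 13 = g.v 3 ∧ g.v 14 = g.v 8 ∧ g.v 15 = g.v 9

/-- membership in the factor of class two -/
def InB (g : PP F) : Prop :=
  g.v 0 = 0 ∧ g.v 1 = 0 ∧ g.v 2 = 0 ∧ g.v 3 = 0 ∧
    g.v 8 = 0 ∧ g.v 9 = 0 ∧ g.v 10 = 0 ∧ g.v 11 = 0

lemma InA.β {g k : PP F} (hg : InA g) (hk : InA k) : hβ g.v k.v = 0 := by
  obtain ⟨-, -, g4, g5, g6, g7, g12, g13, g14, g15⟩ := hg
  obtain ⟨-, -, k4, k5, k6, k7, k12, k13, k14, k15⟩ := hk
  simp only [hβ, g4, g5, g6, g7, g12, g13, g14, g15, k4, k5, k6, k7, k12, k13, k14, k15]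
  ring

variable (F) in
/-- the abelian factor -/
def SA : Subgroup (PP F) where
  carrier := {g | InA g}
  one_mem' := by
    refine ⟨rfl, rfl, rfl, rfl, rfl, rfl, rfl, rfl, rfl, rfl⟩
  mul_mem' := by
    intro g k hg hk
    have hb := InA.β hg hk
    obtain ⟨g0, gt, g4, g5, g6, g7, g12, g13, g14, g15⟩ := hg
    obtain ⟨k0, kt, k4, k5, k6, k7, k12, k13, k14, k15⟩ := hk
    refine ⟨?_, ?_, ?_, ?_, ?_, ?_, ?_, ?_, ?_, ?_⟩
    · simp [g0, k0]
    · simp [g0, hact_one, gt, kt, hb]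
    all_goals simp [g0, hact_one, g4, g5, g6, g7, g12, g13, g14, g15, k4, k5, k6, k7, k12, k13,
      k14, k15]
  inv_mem' := by
    intro g hg
    have hb := InA.β hg hg
    obtain ⟨g0, gt, g4, g5, g6, g7, g12, g13, g14, g15⟩ := hg
    refine ⟨?_, ?_, ?_, ?_, ?_, ?_, ?_, ?_, ?_, ?_⟩
    · simp [g0]
    · simp [gt, hb]
    all_goals simp [g0, hact_one, g4, g5, g6, g7, g12, g13, g14, g15]

variable (F) in
/-- the factor of class two -/
def SB : Subgroup (PP F) where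
  carrier := {g | InB g}
  one_mem' := by
    refine ⟨rfl, rfl, rfl, rfl, rfl, rfl, rfl, rfl⟩
  mul_mem' := by
    rintro g k ⟨g0, g1, g2, g3, g8, g9, g10, g11⟩ ⟨k0, k1, k2, k3, k8, k9, k10, k11⟩
    refine ⟨?_, ?_, ?_, ?_, ?_, ?_, ?_, ?_⟩ <;>
      simp [hact_0, hact_1, hact_2, hact_3, hact_4, hact_5, hact_6, hact_7, hact_8, hact_9, hact_10, hact_11, hact_12, hact_13, hact_14, hact_15,
        g0, g1, g2, g3, g8, g9, g10, g11, k0, k1, k2, k3, k8, k9, k10, k11]
  inv_mem' := by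
    rintro g ⟨g0, g1, g2, g3, g8, g9, g10, g11⟩
    refine ⟨?_, ?_, ?_, ?_, ?_, ?_, ?_, ?_⟩ <;>
      simp [hact_0, hact_1, hact_2, hact_3, hact_4, hact_5, hact_6, hact_7, hact_8, hact_9, hact_10, hact_11, hact_12, hact_13, hact_14, hact_15,
        g0, g1, g2, g3, g8, g9, g10, g11]

lemma mem_SA {g : PP F} : g ∈ SA F ↔ InA g := Iff.rfl
lemma mem_SB {g : PP F} : g ∈ SB F ↔ InB g := Iff.rfl

lemma SA_comm {g k : PP F} (hg : g ∈ SA F) (hk : k ∈ SA F) : g * k = k * g := by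
  have h1 := InA.β hg hk
  have h2 := InA.β hk hg
  apply G.ext
  · simp [hg.1, hk.1]
  · simp [hg.1, hk.1, hact_one, add_comm]
  · simp [hg.1, hk.1, hact_one, h1, h2, add_comm]

/-- the commutators of `SB` have a special shape -/
lemma comm_shape {g k : PP F} (hg : g ∈ SB F) (hk : k ∈ SB F) :
    (⁅g, k⁆).h.x = 0 ∧ (⁅g, k⁆).h.y = 0 ∧ ∀ i, i ≠ 5 → i ≠ 6 → (⁅g, k⁆).v i = 0 := by
  obtain ⟨g0, g1, g2, g3, g8, g9, g10, g11⟩ := hg
  obtain ⟨k0, k1, k2, k3, k8, k9, k10, k11⟩ := hk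
  refine ⟨?_, ?_, ?_⟩
  · simp [commutatorElement_def]
  · simp [commutatorElement_def]
  · intro i h5 h6
    fin_cases i
    all_goals first
      | exact absurd rfl h5
      | exact absurd rfl h6
      | (simp only [commutatorElement_def, G.mul_v, G.inv_v, G.mul_h, G.inv_h, DD_act,
          Pi.add_apply, Pi.neg_apply, Fin.zero_eta, Fin.mk_one, Fin.reduceFinMk, hact_0, hact_1, hact_2, hact_3, hact_4, hact_5, hact_6, hact_7, hact_8, hact_9, hact_10, hact_11, hact_12, hact_13, hact_14, hact_15,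
          g0, g1, g2, g3, g8, g9, g10, g11, k0, k1, k2, k3, k8, k9, k10, k11]
         ring)

/-- elements of the special shape are central in `SB` -/
lemma shape_central {g k : PP F} (h1 : g.h.x = 0) (h2 : g.h.y = 0)
    (h3 : ∀ i, i ≠ 5 → i ≠ 6 → g.v i = 0) (hk : k ∈ SB F) : g * k = k * g := by
  obtain ⟨k0, k1, k2, k3, k8, k9, k10, k11⟩ := hk
  have e0 := h3 0 (by decide) (by decide)
  have e1 := h3 1 (by decide) (by decide)
  have e2 := h3 2 (by decide) (by decide)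
  have e3 := h3 3 (by decide) (by decide)
  have e4 := h3 4 (by decide) (by decide)
  have e7 := h3 7 (by decide) (by decide)
  have e8 := h3 8 (by decide) (by decide)
  have e9 := h3 9 (by decide) (by decide)
  have e10 := h3 10 (by decide) (by decide)
  have e11 := h3 11 (by decide) (by decide)
  have e12 := h3 12 (by decide) (by decide)
  have e13 := h3 13 (by decide) (by decide)
  have e14 := h3 14 (by decide) (by decide)
  have e15 := h3 15 (by decide) (by decide)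
  apply G.ext
  · apply Hs.ext
    · simp [h1]
    · simp [h2]
    · simp [h1, h2, add_comm]
  · funext i
    fin_cases i <;>
      simp [hact_0, hact_1, hact_2, hact_3, hact_4, hact_5, hact_6, hact_7, hact_8, hact_9, hact_10, hact_11, hact_12, hact_13, hact_14, hact_15, h1, h2, e0, e1, e2, e3, e4, e7, e8, e9, e10, e11, e12, e13, e14, e15, k0, k1,
        k2, k3, k8, k9, k10, k11, add_comm]
  · simp [hβ, hact_0, hact_1, hact_2, hact_3, hact_4, hact_5, hact_6, hact_7, hact_8, hact_9, hact_10, hact_11, hact_12, hact_13, hact_14, hact_15, h1, h2, e0, e1, e2, e3, e4, e7, e8, e9, e10, e11, e12, e13, e14, e15, k0, k1,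
      k2, k3, k8, k9, k10, k11, add_comm]

lemma factor (g : PP F) : ∃ a ∈ SA F, ∃ b ∈ SB F, a * b = g := by
  let α : VV F := ![g.v 0, g.v 1, g.v 2, g.v 3, 0, 0, 0, 0, g.v 8, g.v 9, g.v 10, g.v 11,
    g.v 2, g.v 3, g.v 8, g.v 9]
  refine ⟨⟨1, α, 0⟩, ?_, ⟨g.h, g.v - α, g.t - hβ α (g.v - α)⟩, ?_, ?_⟩
  · refine ⟨rfl, rfl, ?_, ?_, ?_, ?_, ?_, ?_, ?_, ?_⟩ <;> simp [α]
  · refine ⟨?_, ?_, ?_, ?_, ?_, ?_, ?_, ?_⟩ <;> simp [α]
  · apply G.ext
    · simp
    · simp [hact_one]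
    · simp [hact_one]

lemma inf_eq_bot : SA F ⊓ SB F = ⊥ := by
  rw [eq_bot_iff]
  rintro g ⟨⟨a0, at', a4, a5, a6, a7, a12, a13, a14, a15⟩, ⟨b0, b1, b2, b3, b8, b9, b10, b11⟩⟩
  rw [Subgroup.mem_bot]
  apply G.ext
  · exact a0
  · funext i
    fin_cases i <;> simp [a4, a5, a6, a7, a12, a13, a14, a15, b0, b1, b2, b3, b8, b9, b10, b11]
  · exact at'

end

end Q17.Fact
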